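import Mathlib

set_option autoImplicit false

namespace Run7.h678.Sat

/-- no four vertices, two in each block, are closed under the two maps -/
def NoClosed (c d : Fin 3 → Fin 3) : Prop :=
  ∀ i j x y : Fin 3, i ≠ j → x ≠ y →
    ¬ ((c x = i ∨ c x = j) ∧ (c y = i ∨ c y = j) ∧ (d i = x ∨ d i = y) ∧ (d j = x ∨ d j = y))

instance (c d : Fin 3 → Fin 3) : Decidable (NoClosed c d) := by
  unfold NoClosed; infer_instance

theorem noClosed_imp : ∀ c d : Fin 3 → Fin 3, NoClosed c d →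
    Function.Injective c ∧ Function.Injective d ∧ ∀ x, d (c x) ≠ x := by
  decide +kernel

/-- the table with the given rows -/
def Tab (b0 b1 b2 b3 b4 b5 b6 b7 b8 : Bool) (i x : Fin 3) : Bool :=
  match i, x with
  | 0, 0 => b0 | 0, 1 => b1 | 0, 2 => b2
  | 1, 0 => b3 | 1, 1 => b4 | 1, 2 => b5
  | 2, 0 => b6 | 2, 1 => b7 | 2, 2 => b8

/-- `p` and `c x` are both among the different `i`, `j` -/
def Both (c : Fin 3 → Fin 3) (p i j x : Fin 3) : Prop :=
  i ≠ j ∧ (p = i ∨ p = j) ∧ (c x = i ∨ c x = j)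

instance (c : Fin 3 → Fin 3) (p i j x : Fin 3) : Decidable (Both c p i j x) := by
  unfold Both; infer_instance

theorem four_le_tab :
    ∀ c d : Fin 3 → Fin 3, (Function.Injective c ∧ Function.Injective d ∧ ∀ x, d (c x) ≠ x) →
    ∀ p q : Fin 3, ∀ b0 b1 b2 b3 b4 b5 b6 b7 b8 : Bool,
      (∀ i j x : Fin 3, Both c p i j x →
        Tab b0 b1 b2 b3 b4 b5 b6 b7 b8 i x = true ∨ Tab b0 b1 b2 b3 b4 b5 b6 b7 b8 j x = true) →
      (∀ x y i : Fin 3, Both d q x y i →
        Tab b0 b1 b2 b3 b4 b5 b6 b7 b8 i x = true ∨ Tab b0 b1 b2 b3 b4 b5 b6 b7 b8 i y = true) →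
      4 ≤ b0.toNat + b1.toNat + b2.toNat + b3.toNat + b4.toNat + b5.toNat + b6.toNat + b7.toNat
        + b8.toNat := by
  decide +kernel

theorem four_le (c d : Fin 3 → Fin 3) (h : NoClosed c d) (p q : Fin 3) (f : Fin 3 → Fin 3 → Bool)
    (h1 : ∀ i j x : Fin 3, Both c p i j x → f i x = true ∨ f j x = true)
    (h2 : ∀ x y i : Fin 3, Both d q x y i → f i x = true ∨ f i y = true) :
    4 ≤ ∑ i : Fin 3, ∑ x : Fin 3, (f i x).toNat := by
  have key : ∀ i x, Tab (f 0 0) (f 0 1) (f 0 2) (f 1 0) (f 1 1) (f 1 2) (f 2 0) (f 2 1) (f 2 2) i x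
      = f i x := by
    intro i x
    fin_cases i <;> fin_cases x <;> rfl
  have := four_le_tab c d (noClosed_imp c d h) p q (f 0 0) (f 0 1) (f 0 2) (f 1 0) (f 1 1) (f 1 2)
    (f 2 0) (f 2 1) (f 2 2) (by intro i j x hb; rw [key, key]; exact h1 i j x hb)
    (by intro x y i hb; rw [key, key]; exact h2 x y i hb)
  simp only [Fin.sum_univ_three]
  omega

end Run7.h678.Sat
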