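import Pool.Agent.Run7.h678.Sat.Loc

set_option autoImplicit false

namespace Run7.h678.Sat

open Finset

section glob
variable {V : Type*} [Fintype V] [DecidableEq V]

theorem count_le_six {t : Finset V} (ht : t.card = 3) :
    (univ.filter (fun p : V × V × V => ({p.1, p.2.1, p.2.2} : Finset V) = t)).card ≤ 6 := by
  obtain ⟨a, b, c, hab, hac, hbc, rfl⟩ := card_eq_three.mp ht
  refine (card_le_card (t := {(a, b, c), (a, c, b), (b, a, c), (b, c, a), (c, a, b), (c, b, a)})
    ?_).trans card_le_six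
  rintro ⟨x, y, z⟩ hp
  simp only [mem_filter, mem_univ, true_and] at hp
  have hx : x ∈ ({a, b, c} : Finset V) := by rw [← hp]; simp
  have hy : y ∈ ({a, b, c} : Finset V) := by rw [← hp]; simp
  have hz : z ∈ ({a, b, c} : Finset V) := by rw [← hp]; simp
  have h3 : ({x, y, z} : Finset V).card = 3 := by rw [hp, ht]
  have hxy : x ≠ y := by
    rintro rfl
    have : ({x, x, z} : Finset V).card ≤ 2 := by
      rw [insert_eq_of_mem (by simp)]; exact card_le_two
    omega
  have hyz : y ≠ z := by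
    rintro rfl
    have : ({x, y, y} : Finset V).card ≤ 2 := by
      rw [pair_eq_singleton]; exact card_le_two
    omega
  have hxz : x ≠ z := by
    rintro rfl
    have : ({x, y, x} : Finset V).card ≤ 2 := by
      rw [pair_comm, insert_eq_of_mem (by simp)]; exact card_le_two
    omega
  simp only [mem_insert, mem_singleton] at hx hy hz
  simp only [mem_insert, mem_singleton, Prod.mk.injEq]
  rcases hx with rfl | rfl | rfl <;> rcases hy with rfl | rfl | rfl <;>
    rcases hz with rfl | rfl | rfl <;> simp_all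

theorem sum_g_le {T : Finset (Finset V)} (hT : ∀ t ∈ T, t.card = 3) :
    ∑ x : V, ∑ y : V, ∑ z : V, g T x y z ≤ 6 * T.card := by
  have h1 : ∑ x : V, ∑ y : V, ∑ z : V, g T x y z =
      (univ.filter (fun p : V × V × V => ({p.1, p.2.1, p.2.2} : Finset V) ∈ T)).card := by
    rw [card_filter, ← univ_product_univ, sum_product]
    refine sum_congr rfl fun x _ => ?_
    rw [← univ_product_univ, sum_product]
    rfl
  rw [h1, card_eq_sum_card_fiberwise (f := fun p : V × V × V => ({p.1, p.2.1, p.2.2} : Finset V))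
    (t := T) (by intro p hp; simpa using hp)]
  calc ∑ t ∈ T, _ ≤ ∑ t ∈ T, 6 := by
        refine sum_le_sum fun t ht => ?_
        refine le_trans (card_le_card ?_) (count_le_six (hT t ht))
        intro p hp
        simp only [mem_filter, mem_univ, true_and] at hp ⊢
        exact hp.2
    _ = 6 * T.card := by rw [sum_const, smul_eq_mul, mul_comm]

/-- the sum of the indicator over a box -/
def bx (T : Finset (Finset V)) (X Y Z : Finset V) : ℕ := ∑ x ∈ X, ∑ y ∈ Y, ∑ z ∈ Z, g T x y z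

omit [Fintype V] in
theorem bx_swap (T : Finset (Finset V)) (X Y Z : Finset V) : bx T X Y Z = bx T Y X Z := by
  unfold bx
  rw [sum_comm]
  refine sum_congr rfl fun y _ => sum_congr rfl fun x _ => sum_congr rfl fun z _ => ?_
  exact g_swap T x y z

omit [Fintype V] in
theorem bx_swap' (T : Finset (Finset V)) (X Y Z : Finset V) : bx T X Y Z = bx T X Z Y := by
  unfold bx
  refine sum_congr rfl fun x _ => ?_
  rw [sum_comm]
  refine sum_congr rfl fun z _ => sum_congr rfl fun y _ => ?_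
  exact g_swap' T x y z

theorem split {T : Finset (Finset V)} (U : Finset V) :
    bx T U U U + 3 * bx T U U Uᶜ + 3 * bx T U Uᶜ Uᶜ ≤ ∑ x : V, ∑ y : V, ∑ z : V, g T x y z := by
  have h1 : ∀ F : V → ℕ, ∑ x : V, F x = ∑ x ∈ U, F x + ∑ x ∈ Uᶜ, F x := fun F =>
    (sum_add_sum_compl U F).symm
  have h2 : ∑ x : V, ∑ y : V, ∑ z : V, g T x y z =
      bx T U U U + bx T U U Uᶜ + (bx T U Uᶜ U + bx T U Uᶜ Uᶜ) +
      (bx T Uᶜ U U + bx T Uᶜ U Uᶜ + (bx T Uᶜ Uᶜ U + bx T Uᶜ Uᶜ Uᶜ)) := by
    unfold bx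
    simp only [h1, sum_add_distrib]
  have e1 : bx T U Uᶜ U = bx T U U Uᶜ := bx_swap' T U Uᶜ U
  have e2 : bx T Uᶜ U U = bx T U U Uᶜ := by rw [bx_swap, e1]
  have e3 : bx T Uᶜ U Uᶜ = bx T U Uᶜ Uᶜ := bx_swap T Uᶜ U Uᶜ
  have e4 : bx T Uᶜ Uᶜ U = bx T U Uᶜ Uᶜ := by rw [bx_swap', e3]
  rw [h2, e1, e2, e3, e4]
  omega

variable {r : ℕ} {B : Fin r → Finset V}

omit [Fintype V] in
theorem sum_U (hdis : ∀ i j, i ≠ j → Disjoint (B i) (B j)) (F : V → ℕ) :
    ∑ x ∈ univ.biUnion B, F x = ∑ i, ∑ x ∈ B i, F x := by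
  rw [sum_biUnion (fun i _ j _ h => hdis i j h)]

/-- defects of the block `i` in the block `j` -/
def D (T : Finset (Finset V)) (B : Fin r → Finset V) (i j : Fin r) : ℕ := ∑ x ∈ B j, dd T (B i) x

omit [Fintype V] in
theorem bx_first (T : Finset (Finset V)) (hdis : ∀ i j, i ≠ j → Disjoint (B i) (B j))
    (Y Z : Finset V) :
    bx T (univ.biUnion B) Y Z = ∑ i, bx T (B i) Y Z := by
  unfold bx
  rw [sum_U hdis]

omit [Fintype V] in
theorem bx_second (T : Finset (Finset V)) (hdis : ∀ i j, i ≠ j → Disjoint (B i) (B j))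
    (X Z : Finset V) :
    bx T X (univ.biUnion B) Z = ∑ j, bx T X (B j) Z := by
  rw [bx_swap, bx_first T hdis]
  exact sum_congr rfl fun j _ => bx_swap _ _ _ _

omit [Fintype V] in
theorem bx_third (T : Finset (Finset V)) (hdis : ∀ i j, i ≠ j → Disjoint (B i) (B j))
    (X Y : Finset V) :
    bx T X Y (univ.biUnion B) = ∑ k, bx T X Y (B k) := by
  rw [bx_swap', bx_second T hdis]
  exact sum_congr rfl fun j _ => bx_swap' _ _ _ _

omit [Fintype V] in
theorem bx_z (T : Finset (Finset V)) (X Y Z : Finset V) :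
    bx T X Y Z = ∑ z ∈ Z, ∑ x ∈ X, ∑ y ∈ Y, g T x y z := by
  have h : ∀ x ∈ X, ∑ y ∈ Y, ∑ z ∈ Z, g T x y z = ∑ z ∈ Z, ∑ y ∈ Y, g T x y z :=
    fun x _ => sum_comm
  unfold bx
  rw [sum_congr rfl h, sum_comm]

theorem total_three (r : ℕ) (D : Fin r → Fin r → ℤ) :
    ∑ i : Fin r, ∑ j : Fin r, ∑ k : Fin r, ((12 : ℤ) -
      6 * ((if i = j then 1 else 0) + (if j = k then 1 else 0) + (if i = k then 1 else 0)) +
      6 * ((if i = j then 1 else 0) * (if j = k then 1 else 0)) -
      12 * (D i j + D j i + D i k + D k i + D j k + D k j)) =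
    12 * r ^ 3 - 18 * r ^ 2 + 6 * r - 72 * r * ∑ i, ∑ j, D i j := by
  have e1 : ∀ i j k : Fin r, ((if i = j then (1 : ℤ) else 0) * (if j = k then 1 else 0)) =
      if i = j then (if i = k then 1 else 0) else 0 := by
    intro i j k; split_ifs <;> simp_all
  have e2 : ∑ i : Fin r, ∑ j : Fin r, ∑ k : Fin r,
      (if i = j then (if i = k then (1 : ℤ) else 0) else 0) = r := by
    have : ∀ i j : Fin r, ∑ k : Fin r, (if i = j then (if i = k then (1 : ℤ) else 0) else 0) =
        if i = j then 1 else 0 := by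
      intro i j; split_ifs <;> simp
    simp only [this, sum_ite_eq, mem_univ, if_true, sum_const, card_univ, Fintype.card_fin,
      nsmul_eq_mul, mul_one]
  have e3 : ∑ x : Fin r, ∑ y : Fin r, D y x = ∑ i, ∑ j, D i j := sum_comm
  simp only [e1, sum_add_distrib, sum_sub_distrib, ← mul_sum, e2, sum_ite_eq, mem_univ, if_true,
    sum_const, card_univ, Fintype.card_fin, nsmul_eq_mul, e3]
  ring

theorem total_two (r : ℕ) (R : Finset V) (D : Fin r → Fin r → ℤ) (d : Fin r → V → ℤ) :
    ∑ i : Fin r, ∑ j : Fin r, ∑ z ∈ R, ((4 : ℤ) - 2 * (if i = j then 1 else 0) -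
      4 * (D i j + D j i + d i z + d j z)) =
    R.card * (4 * r ^ 2 - 2 * r) - 8 * R.card * ∑ i, ∑ j, D i j -
      8 * r * ∑ i, ∑ z ∈ R, d i z := by
  have e3 : ∑ x : Fin r, ∑ y : Fin r, D y x = ∑ i, ∑ j, D i j := sum_comm
  simp only [sum_add_distrib, sum_sub_distrib, ← mul_sum, sum_ite_eq, mem_univ, if_true,
    sum_const, card_univ, Fintype.card_fin, nsmul_eq_mul, e3]
  ring

theorem total_one (r : ℕ) (R : Finset V) (d : Fin r → V → ℤ) :
    ∑ i : Fin r, ∑ y ∈ R, ∑ z ∈ R, ((1 : ℤ) - (if y = z then 1 else 0) - (d i y + d i z)) =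
    r * (R.card ^ 2 - R.card) - 2 * R.card * ∑ i, ∑ z ∈ R, d i z := by
  have e1 : ∀ y ∈ R, ∑ z ∈ R, (if y = z then (1 : ℤ) else 0) = 1 := by
    intro y hy; rw [sum_ite_eq, if_pos hy]
  have e2 : ∑ y ∈ R, ∑ z ∈ R, (if y = z then (1 : ℤ) else 0) = R.card := by
    rw [sum_congr rfl e1]; simp
  simp only [sum_add_distrib, sum_sub_distrib, ← mul_sum, e2, mem_univ, if_true,
    sum_const, card_univ, Fintype.card_fin, nsmul_eq_mul]
  ring

omit [Fintype V] in
/-- a block, the same block, another block -/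
theorem blk_iik {T : Finset (Finset V)} (hT : Cov T) (hB : ∀ i, (B i).card = 3)
    (hdis : ∀ i j, i ≠ j → Disjoint (B i) (B j)) {i k : Fin r} (hik : i ≠ k) :
    6 ≤ bx T (B i) (B i) (B k) + 2 * D T B i k := by
  rw [bx_z]
  unfold D
  rw [mul_sum, ← sum_add_distrib]
  calc 6 = ∑ z ∈ B k, 2 := by rw [sum_const, hB]; rfl
    _ ≤ _ := by
      refine sum_le_sum fun z hz => ?_
      exact loc1 hT (hB i) (fun h => (disjoint_left.mp (hdis i k hik)) h hz)

omit [Fintype V] in
theorem blk_iiz {T : Finset (Finset V)} (hT : Cov T) (hB : ∀ i, (B i).card = 3)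
    {i : Fin r} {z : V} (hz : z ∉ B i) :
    2 ≤ bx T (B i) (B i) {z} + 2 * dd T (B i) z := by
  rw [bx_z, sum_singleton]
  exact loc1 hT (hB i) hz

omit [Fintype V] in
theorem blk_ijz {T : Finset (Finset V)} (hT : Cov T) (hB : ∀ i, (B i).card = 3)
    (hdis : ∀ i j, i ≠ j → Disjoint (B i) (B j)) {i j : Fin r} (hij : i ≠ j) {z : V}
    (hzi : z ∉ B i) (hzj : z ∉ B j) :
    4 ≤ bx T (B i) (B j) {z} + 4 * (D T B i j + D T B j i + dd T (B i) z + dd T (B j) z) := by
  rw [bx_z, sum_singleton]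
  exact loc2 hT (hB i) (hB j) (hdis i j hij) hzi hzj

omit [Fintype V] in
theorem blk_ijk {T : Finset (Finset V)} (hT : Cov T) (hB : ∀ i, (B i).card = 3)
    (hdis : ∀ i j, i ≠ j → Disjoint (B i) (B j)) {i j k : Fin r} (hij : i ≠ j) (hik : i ≠ k)
    (hjk : j ≠ k) :
    12 ≤ bx T (B i) (B j) (B k) + (12 * D T B i j + 12 * D T B j i + 4 * D T B i k +
      4 * D T B j k) := by
  have h : ∑ z ∈ B k, (4 : ℕ) ≤ ∑ z ∈ B k, (bx T (B i) (B j) {z} +
      4 * (D T B i j + D T B j i + dd T (B i) z + dd T (B j) z)) :=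
    sum_le_sum fun z hz => blk_ijz hT hB hdis hij
      (fun h => (disjoint_left.mp (hdis i k hik)) h hz)
      (fun h => (disjoint_left.mp (hdis j k hjk)) h hz)
  have h1 : ∑ z ∈ B k, bx T (B i) (B j) {z} = bx T (B i) (B j) (B k) := by
    rw [bx_z T (B i) (B j) (B k)]
    refine sum_congr rfl fun z _ => ?_
    rw [bx_z, sum_singleton]
  have h2 : ∑ z ∈ B k, (D T B i j + D T B j i + dd T (B i) z + dd T (B j) z) =
      3 * D T B i j + 3 * D T B j i + D T B i k + D T B j k := by
    simp only [sum_add_distrib, sum_const, hB, smul_eq_mul]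
    rfl
  rw [sum_add_distrib, ← mul_sum, h1, h2, sum_const, hB, smul_eq_mul] at h
  omega

omit [Fintype V] in
theorem blk_izw {T : Finset (Finset V)} (hT : Cov T) (hB : ∀ i, (B i).card = 3)
    {i : Fin r} {y z : V} (hy : y ∉ B i) (hz : z ∉ B i) (hyz : y ≠ z) :
    1 ≤ bx T (B i) {y} {z} + (dd T (B i) y + dd T (B i) z) := by
  unfold bx
  simp only [sum_singleton]
  have := loc3 hT (hB i) hy hz hyz
  omega

/-- the main inequality -/
theorem main {T : Finset (Finset V)} (hT : Cov T) (hB : ∀ i, (B i).card = 3)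
    (hdis : ∀ i j, i ≠ j → Disjoint (B i) (B j)) (s : ℕ) (hs : Fintype.card V = 3 * r + s) :
    (12 * r ^ 3 + 12 * r ^ 2 * s + 3 * r * s ^ 2 + 6 * r : ℤ) ≤
      6 * T.card + 24 * (3 * r + s) * ∑ i, ∑ x : V, dd T (B i) x + 18 * r ^ 2 + 9 * r * s := by
  set U : Finset V := univ.biUnion B with hU
  have hUc : U.card = 3 * r := by
    rw [hU, card_biUnion (fun i _ j _ h => hdis i j h)]
    simp only [hB, sum_const, card_univ, Fintype.card_fin, smul_eq_mul]
    ring
  have hRc : Uᶜ.card = s := by rw [card_compl, hUc, hs]; omega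
  have hnot : ∀ (i : Fin r) {z : V}, z ∈ Uᶜ → z ∉ B i := by
    intro i z hz h
    rw [mem_compl] at hz
    exact hz (mem_biUnion.mpr ⟨i, mem_univ _, h⟩)
  have h0 := split (T := T) U
  have h1 := sum_g_le hT.1
  -- the three parts
  have hA : bx T U U U = ∑ i, ∑ j, ∑ k, bx T (B i) (B j) (B k) := by
    rw [hU, bx_first T hdis]
    refine sum_congr rfl fun i _ => ?_
    rw [bx_second T hdis]
    refine sum_congr rfl fun j _ => ?_
    rw [bx_third T hdis]
  have hC : bx T U U Uᶜ = ∑ i, ∑ j, ∑ z ∈ Uᶜ, bx T (B i) (B j) {z} := by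
    rw [hU, bx_first T hdis]
    refine sum_congr rfl fun i _ => ?_
    rw [bx_second T hdis]
    refine sum_congr rfl fun j _ => ?_
    rw [bx_z]
    refine sum_congr rfl fun z _ => ?_
    rw [bx_z, sum_singleton]
  have hE : bx T U Uᶜ Uᶜ = ∑ i, ∑ y ∈ Uᶜ, ∑ z ∈ Uᶜ, bx T (B i) {y} {z} := by
    rw [hU, bx_first T hdis]
    refine sum_congr rfl fun i _ => ?_
    unfold bx
    simp only [sum_singleton]
    rw [sum_comm]
    refine sum_congr rfl fun y _ => ?_
    rw [sum_comm]
  have hA' : (12 * r ^ 3 - 18 * r ^ 2 + 6 * r - 72 * r * ∑ i, ∑ j, (D T B i j : ℤ) : ℤ) ≤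
      (bx T U U U : ℕ) := by
    rw [← total_three, hA]
    push_cast
    refine sum_le_sum fun i _ => sum_le_sum fun j _ => sum_le_sum fun k _ => ?_
    have hD : ∀ a b, (0 : ℤ) ≤ D T B a b := fun a b => by positivity
    have n1 := hD i j
    have n2 := hD j i
    have n3 := hD i k
    have n4 := hD k i
    have n5 := hD j k
    have n6 := hD k j
    have nb : (0 : ℤ) ≤ bx T (B i) (B j) (B k) := by positivity
    by_cases hij : i = j
    · by_cases hjk : j = k
      · subst hij; subst hjk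
        simp only [if_true]
        linarith
      · subst hij
        have := blk_iik hT hB hdis hjk
        zify at this
        simp only [if_true, if_neg hjk]
        linarith
    · by_cases hjk : j = k
      · subst hjk
        have := blk_iik hT hB hdis (Ne.symm hij)
        rw [bx_swap', bx_swap] at this
        zify at this
        simp only [if_true, if_neg hij]
        linarith
      · by_cases hik : i = k
        · subst hik
          have := blk_iik hT hB hdis hij
          rw [bx_swap'] at this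
          zify at this
          simp only [if_true, if_neg hij, if_neg hjk]
          linarith
        · have := blk_ijk hT hB hdis hij hik hjk
          zify at this
          simp only [if_neg hij, if_neg hjk, if_neg hik]
          linarith
  have hC' : ((s : ℤ) * (4 * r ^ 2 - 2 * r) - 8 * s * ∑ i, ∑ j, (D T B i j : ℤ) -
      8 * r * ∑ i, ∑ z ∈ Uᶜ, (dd T (B i) z : ℤ)) ≤ (bx T U U Uᶜ : ℕ) := by
    have e := total_two r Uᶜ (fun i j => (D T B i j : ℤ)) (fun i z => (dd T (B i) z : ℤ))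
    rw [hRc] at e
    rw [← e, hC]
    push_cast
    refine sum_le_sum fun i _ => sum_le_sum fun j _ => sum_le_sum fun z hz => ?_
    have hD : ∀ a b, (0 : ℤ) ≤ D T B a b := fun a b => by positivity
    have n1 := hD i j
    have n2 := hD j i
    have n3 : (0 : ℤ) ≤ dd T (B i) z := by positivity
    have n4 : (0 : ℤ) ≤ dd T (B j) z := by positivity
    by_cases hij : i = j
    · subst hij
      have := blk_iiz hT hB (hnot i hz)
      zify at this
      simp only [if_true]
      linarith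
    · have := blk_ijz hT hB hdis hij (hnot i hz) (hnot j hz)
      zify at this
      simp only [if_neg hij]
      linarith
  have hE' : ((r : ℤ) * (s ^ 2 - s) - 2 * s * ∑ i, ∑ z ∈ Uᶜ, (dd T (B i) z : ℤ)) ≤
      (bx T U Uᶜ Uᶜ : ℕ) := by
    have e := total_one r Uᶜ (fun i z => (dd T (B i) z : ℤ))
    rw [hRc] at e
    rw [← e, hE]
    push_cast
    refine sum_le_sum fun i _ => sum_le_sum fun y hy => sum_le_sum fun z hz => ?_
    have n3 : (0 : ℤ) ≤ dd T (B i) z := by positivity
    have n4 : (0 : ℤ) ≤ dd T (B i) y := by positivity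
    have nb : (0 : ℤ) ≤ bx T (B i) {y} {z} := by positivity
    by_cases hyz : y = z
    · subst hyz
      simp only [if_true]
      linarith
    · have := blk_izw hT hB (hnot i hy) (hnot i hz) hyz
      zify at this
      simp only [if_neg hyz]
      linarith
  have hdd : ∑ i, ∑ x : V, (dd T (B i) x : ℤ) =
      ∑ i, ∑ j, (D T B i j : ℤ) + ∑ i, ∑ z ∈ Uᶜ, (dd T (B i) z : ℤ) := by
    rw [← sum_add_distrib]
    refine sum_congr rfl fun i _ => ?_
    rw [← sum_add_sum_compl U]
    congr 1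
    rw [hU, sum_biUnion (fun i _ j _ h => hdis i j h)]
    refine sum_congr rfl fun j _ => ?_
    unfold D
    push_cast
    rfl
  have g1 : (0 : ℤ) ≤ ∑ i, ∑ j, (D T B i j : ℤ) := by positivity
  have g2 : (0 : ℤ) ≤ ∑ i, ∑ z ∈ Uᶜ, (dd T (B i) z : ℤ) := by positivity
  zify at h0 h1
  push_cast
  rw [hdd]
  have k1 : (0 : ℤ) ≤ (s : ℤ) * ∑ i, ∑ j, (D T B i j : ℤ) := by positivity
  have k2 : (0 : ℤ) ≤ (s : ℤ) * ∑ i, ∑ z ∈ Uᶜ, (dd T (B i) z : ℤ) := by positivity
  have k3 : (0 : ℤ) ≤ (r : ℤ) * ∑ i, ∑ z ∈ Uᶜ, (dd T (B i) z : ℤ) := by positivity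
  nlinarith [h0, h1, hA', hC', hE', k1, k2, k3]

end glob

end Run7.h678.Sat
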