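import Pool.Agent.Run7.h678.Sat.Core

set_option autoImplicit false

namespace Run7.h678.Sat

open Finset

section loc
variable {V : Type*} [DecidableEq V]

/-- every four vertices contain a member -/
def Cov (T : Finset (Finset V)) : Prop :=
  (∀ t ∈ T, t.card = 3) ∧ ∀ S : Finset V, S.card = 4 → ∃ t ∈ T, t ⊆ S

/-- the indicator of `T` on three vertices -/
def g (T : Finset (Finset V)) (x y z : V) : ℕ := if ({x, y, z} : Finset V) ∈ T then 1 else 0

theorem g_swap (T : Finset (Finset V)) (x y z : V) : g T x y z = g T y x z := by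
  unfold g; rw [Finset.insert_comm]

theorem g_swap' (T : Finset (Finset V)) (x y z : V) : g T x y z = g T x z y := by
  unfold g; rw [Finset.pair_comm]

theorem rot3 (x y z : V) : ({x, y, z} : Finset V) = {y, z, x} := by
  ext w; simp only [mem_insert, mem_singleton]; tauto

theorem g_rot (T : Finset (Finset V)) (x y z : V) : g T x y z = g T z x y := by
  rw [g_swap' T x y z, g_swap T x z y]

theorem cov4 {T : Finset (Finset V)} (hT : Cov T) {a b c d : V} (hab : a ≠ b) (hac : a ≠ c)
    (had : a ≠ d) (hbc : b ≠ c) (hbd : b ≠ d) (hcd : c ≠ d) :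
    ({a, b, c} : Finset V) ∈ T ∨ ({a, b, d} : Finset V) ∈ T ∨ ({c, d, a} : Finset V) ∈ T ∨
      ({c, d, b} : Finset V) ∈ T := by
  have hS : ({a, b, c, d} : Finset V).card = 4 := by
    rw [card_insert_of_notMem (by simp [hab, hac, had]),
      card_insert_of_notMem (by simp [hbc, hbd]), card_insert_of_notMem (by simp [hcd]),
      card_singleton]
  obtain ⟨t, ht, hts⟩ := hT.2 _ hS
  have h3 := hT.1 t ht
  obtain ⟨v, hv⟩ : ∃ v, ({a, b, c, d} : Finset V) \ t = {v} := by
    rw [← card_eq_one, card_sdiff_of_subset hts, hS, h3]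
  have hvS : v ∈ ({a, b, c, d} : Finset V) := by
    have : v ∈ ({a, b, c, d} : Finset V) \ t := by rw [hv]; simp
    exact (mem_sdiff.mp this).1
  have hte : t = ({a, b, c, d} : Finset V).erase v := by
    have h1 : t = ({a, b, c, d} : Finset V) \ (({a, b, c, d} : Finset V) \ t) := by
      rw [Finset.sdiff_sdiff_eq_self hts]
    rw [h1, hv, sdiff_singleton_eq_erase]
  simp only [mem_insert, mem_singleton] at hvS
  rcases hvS with rfl | rfl | rfl | rfl
  · right; right; right
    convert ht using 1
    rw [hte]; ext w; simp only [mem_insert, mem_singleton, mem_erase]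
    constructor
    · rintro (rfl | rfl | rfl)
      · exact ⟨hac.symm, by tauto⟩
      · exact ⟨had.symm, by tauto⟩
      · exact ⟨hab.symm, by tauto⟩
    · rintro ⟨h, h'⟩; tauto
  · right; right; left
    convert ht using 1
    rw [hte]; ext w; simp only [mem_insert, mem_singleton, mem_erase]
    constructor
    · rintro (rfl | rfl | rfl)
      · exact ⟨hbc.symm, by tauto⟩
      · exact ⟨hbd.symm, by tauto⟩
      · exact ⟨hab, by tauto⟩
    · rintro ⟨h, h'⟩; tauto
  · right; left
    convert ht using 1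
    rw [hte]; ext w; simp only [mem_insert, mem_singleton, mem_erase]
    constructor
    · rintro (rfl | rfl | rfl)
      · exact ⟨hac, by tauto⟩
      · exact ⟨hbc, by tauto⟩
      · exact ⟨hcd.symm, by tauto⟩
    · rintro ⟨h, h'⟩; tauto
  · left
    convert ht using 1
    rw [hte]; ext w; simp only [mem_insert, mem_singleton, mem_erase]
    constructor
    · rintro (rfl | rfl | rfl)
      · exact ⟨had, by tauto⟩
      · exact ⟨hbd, by tauto⟩
      · exact ⟨hcd, by tauto⟩
    · rintro ⟨h, h'⟩; tauto

/-- `B` is not in `T`, and `B` with the vertex `x` contains exactly one member of `T` -/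
def Good (T : Finset (Finset V)) (B : Finset V) (x : V) : Prop :=
  B ∉ T ∧ (T.filter (fun t => t ⊆ insert x B)).card = 1

instance (T : Finset (Finset V)) (B : Finset V) (x : V) : Decidable (Good T B x) := by
  unfold Good; infer_instance

/-- the defect: `1` if `x` is not in `B` and not good for `B` -/
def dd (T : Finset (Finset V)) (B : Finset V) (x : V) : ℕ :=
  if x ∉ B ∧ ¬ Good T B x then 1 else 0

theorem exists_enum {B : Finset V} (hB : B.card = 3) :
    ∃ b : Fin 3 → V, Function.Injective b ∧ B = univ.image b := by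
  have e := B.equivFinOfCardEq hB
  refine ⟨fun i => (e.symm i : V), ?_, ?_⟩
  · intro i j h
    exact e.symm.injective (Subtype.ext h)
  · ext v
    simp only [mem_image, mem_univ, true_and]
    constructor
    · intro hv
      exact ⟨e ⟨v, hv⟩, by simp⟩
    · rintro ⟨i, rfl⟩
      exact (e.symm i).2

theorem apex {T : Finset (Finset V)} (hT : Cov T) {b : Fin 3 → V} (hb : Function.Injective b)
    {x : V} (hx : x ∉ univ.image b) (hg : Good T (univ.image b) x) :
    ∃ c : Fin 3, ∀ i j : Fin 3, i ≠ j → (({b i, b j, x} : Finset V) ∈ T ↔ c ≠ i ∧ c ≠ j) := by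
  obtain ⟨hBT, h1⟩ := hg
  set B : Finset V := univ.image b with hBdef
  have hB : B.card = 3 := by rw [hBdef, card_image_of_injective _ hb]; rfl
  obtain ⟨t, ht⟩ := card_eq_one.mp h1
  have htm : t ∈ T.filter (fun t => t ⊆ insert x B) := by rw [ht]; simp
  obtain ⟨htT, hts⟩ := mem_filter.mp htm
  have huniq : ∀ s ∈ T, s ⊆ insert x B → s = t := by
    intro s hs hs'
    have : s ∈ T.filter (fun t => t ⊆ insert x B) := mem_filter.mpr ⟨hs, hs'⟩
    rw [ht] at this; exact mem_singleton.mp this
  have ht3 := hT.1 t htT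
  have hxt : x ∈ t := by
    by_contra hxt
    have h2 : t ⊆ B := by
      intro v hv
      rcases mem_insert.mp (hts hv) with rfl | h
      · exact absurd hv hxt
      · exact h
    have h3 : t = B := eq_of_subset_of_card_le h2 (by rw [hB, ht3])
    exact hBT (h3 ▸ htT)
  -- the vertex of B outside t
  obtain ⟨c, hc⟩ : ∃ c : Fin 3, b c ∉ t := by
    by_contra hcon
    push Not at hcon
    have h2 : insert x B ⊆ t := by
      intro v hv
      rcases mem_insert.mp hv with rfl | h
      · exact hxt
      · rw [hBdef] at h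
        obtain ⟨i, -, rfl⟩ := mem_image.mp h
        exact hcon i
    have := card_le_card h2
    rw [card_insert_of_notMem hx, hB, ht3] at this
    omega
  refine ⟨c, fun i j hij => ?_⟩
  constructor
  · intro hm
    have hsub : ({b i, b j, x} : Finset V) ⊆ insert x B := by
      intro v hv
      simp only [mem_insert, mem_singleton] at hv
      rcases hv with rfl | rfl | rfl
      · exact mem_insert_of_mem (mem_image_of_mem _ (mem_univ _))
      · exact mem_insert_of_mem (mem_image_of_mem _ (mem_univ _))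
      · exact mem_insert_self _ _
    have := huniq _ hm hsub
    constructor
    · rintro rfl
      apply hc; rw [← this]; simp
    · rintro rfl
      apply hc; rw [← this]; simp
  · rintro ⟨hci, hcj⟩
    have h2 : t ⊆ ({b i, b j, x} : Finset V) := by
      intro v hv
      rcases mem_insert.mp (hts hv) with rfl | h
      · simp
      · rw [hBdef] at h
        obtain ⟨k, -, rfl⟩ := mem_image.mp h
        have hk : k = i ∨ k = j := by
          have : k ≠ c := by rintro rfl; exact hc hv
          omega
        rcases hk with rfl | rfl <;> simp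
    have h3 : t = ({b i, b j, x} : Finset V) := eq_of_subset_of_card_le h2 (by
      rw [ht3]; exact card_le_three)
    rw [← h3]; exact htT

theorem not_both {c i j : Fin 3} (h : c = i ∨ c = j) : ¬ (c ≠ i ∧ c ≠ j) := by
  rintro ⟨h1, h2⟩
  rcases h with h | h
  · exact h1 h
  · exact h2 h

theorem both_exists : ∀ c d : Fin 3, ∃ i j : Fin 3, i ≠ j ∧ (c = i ∨ c = j) ∧ (d = i ∨ d = j) := by
  decide

theorem sum_enum {b : Fin 3 → V} (hb : Function.Injective b) (F : V → ℕ) :
    ∑ a ∈ univ.image b, F a = ∑ i : Fin 3, F (b i) := by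
  rw [sum_image (fun _ _ _ _ h => hb h)]

/-- one block and one vertex -/
theorem loc1 {T : Finset (Finset V)} (hT : Cov T) {B : Finset V} (hB : B.card = 3) {x : V}
    (hx : x ∉ B) : 2 ≤ ∑ a ∈ B, ∑ a' ∈ B, g T a a' x + 2 * dd T B x := by
  by_cases hg : Good T B x
  · obtain ⟨b, hb, rfl⟩ := exists_enum hB
    obtain ⟨c, hc⟩ := apex hT hb hx hg
    have h01 := hc 0 1 (by decide)
    have h10 := hc 1 0 (by decide)
    have h02 := hc 0 2 (by decide)
    have h20 := hc 2 0 (by decide)
    have h12 := hc 1 2 (by decide)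
    have h21 := hc 2 1 (by decide)
    have : 2 ≤ ∑ a ∈ univ.image b, ∑ a' ∈ univ.image b, g T a a' x := by
      rw [sum_enum hb]
      simp only [sum_enum hb, Fin.sum_univ_three, g, h01, h10, h02, h20, h12, h21]
      fin_cases c <;> simp <;> omega
    omega
  · have : dd T B x = 1 := by unfold dd; rw [if_pos ⟨hx, hg⟩]
    omega

/-- one block and two vertices -/
theorem loc3 {T : Finset (Finset V)} (hT : Cov T) {B : Finset V} (hB : B.card = 3) {y z : V}
    (hy : y ∉ B) (hz : z ∉ B) (hyz : y ≠ z) :
    1 ≤ ∑ a ∈ B, g T a y z + dd T B y + dd T B z := by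
  by_cases hgy : Good T B y
  swap
  · have : dd T B y = 1 := by unfold dd; rw [if_pos ⟨hy, hgy⟩]
    omega
  by_cases hgz : Good T B z
  swap
  · have : dd T B z = 1 := by unfold dd; rw [if_pos ⟨hz, hgz⟩]
    omega
  obtain ⟨b, hb, rfl⟩ := exists_enum hB
  obtain ⟨c, hc⟩ := apex hT hb hy hgy
  obtain ⟨d, hd⟩ := apex hT hb hz hgz
  obtain ⟨i, j, hij, h1, h2⟩ := both_exists c d
  have hmem : ∀ i, b i ∈ univ.image b := fun i => mem_image_of_mem _ (mem_univ _)
  have hby : ∀ i, b i ≠ y := fun i h => hy (h ▸ hmem i)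
  have hbz : ∀ i, b i ≠ z := fun i h => hz (h ▸ hmem i)
  have h3 : ({b i, b j, y} : Finset V) ∉ T := by
    rw [hc i j hij]; exact not_both h1
  have h4 : ({b i, b j, z} : Finset V) ∉ T := by
    rw [hd i j hij]; exact not_both h2
  have h5 := cov4 hT (hb.ne hij) (hby i) (hbz i) (hby j) (hbz j) hyz
  have h6 : ∃ k, ({y, z, b k} : Finset V) ∈ T := by
    rcases h5 with h | h | h | h
    · exact absurd h h3
    · exact absurd h h4
    · exact ⟨i, h⟩
    · exact ⟨j, h⟩
  obtain ⟨k, hk⟩ := h6
  have h7 : g T (b k) y z = 1 := by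
    rw [g_swap, g_swap']
    unfold g; rw [if_pos hk]
  have h8 : g T (b k) y z ≤ ∑ a ∈ univ.image b, g T a y z :=
    single_le_sum (f := fun a => g T a y z) (fun _ _ => Nat.zero_le _) (hmem k)
  omega

/-- two blocks and one vertex -/
theorem loc2 {T : Finset (Finset V)} (hT : Cov T) {B C : Finset V} (hB : B.card = 3)
    (hC : C.card = 3) (hBC : Disjoint B C) {z : V} (hzB : z ∉ B) (hzC : z ∉ C) :
    4 ≤ ∑ a ∈ B, ∑ c ∈ C, g T a c z +
      4 * (∑ x ∈ C, dd T B x + ∑ a ∈ B, dd T C a + dd T B z + dd T C z) := by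
  by_cases hall : (∀ x ∈ C, Good T B x) ∧ (∀ a ∈ B, Good T C a) ∧ Good T B z ∧ Good T C z
  swap
  · have h1 : 1 ≤ ∑ x ∈ C, dd T B x + ∑ a ∈ B, dd T C a + dd T B z + dd T C z := by
      by_contra hcon
      apply hall
      have h0 : ∑ x ∈ C, dd T B x = 0 := by omega
      have h0' : ∑ a ∈ B, dd T C a = 0 := by omega
      have h2 : dd T B z = 0 := by omega
      have h3 : dd T C z = 0 := by omega
      have key : ∀ (D : Finset V) (x : V), x ∉ D → dd T D x = 0 → Good T D x := by
        intro D x hx h
        by_contra hg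
        unfold dd at h; rw [if_pos ⟨hx, hg⟩] at h; omega
      refine ⟨fun x hx => key B x (fun h => (disjoint_left.mp hBC) h hx) ?_,
        fun a ha => key C a (fun h => (disjoint_left.mp hBC) ha h) ?_, key B z hzB h2,
        key C z hzC h3⟩
      · exact (sum_eq_zero_iff.mp h0) x hx
      · exact (sum_eq_zero_iff.mp h0') a ha
    omega
  obtain ⟨g1, g2, g3, g4⟩ := hall
  obtain ⟨b, hb, rfl⟩ := exists_enum hB
  obtain ⟨x, hx, rfl⟩ := exists_enum hC
  have hmb : ∀ i, b i ∈ univ.image b := fun i => mem_image_of_mem _ (mem_univ _)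
  have hmx : ∀ i, x i ∈ univ.image x := fun i => mem_image_of_mem _ (mem_univ _)
  have hbx : ∀ i j, b i ≠ x j := fun i j h => (disjoint_left.mp hBC) (hmb i) (h ▸ hmx j)
  have hbz : ∀ i, b i ≠ z := fun i h => hzB (h ▸ hmb i)
  have hxz : ∀ i, x i ≠ z := fun i h => hzC (h ▸ hmx i)
  have e1 : ∀ j : Fin 3, ∃ c : Fin 3, ∀ i i' : Fin 3, i ≠ i' →
      (({b i, b i', x j} : Finset V) ∈ T ↔ c ≠ i ∧ c ≠ i') := fun j =>
    apex hT hb (fun h => (disjoint_left.mp hBC) h (hmx j)) (g1 _ (hmx j))
  have e2 : ∀ i : Fin 3, ∃ c : Fin 3, ∀ j j' : Fin 3, j ≠ j' →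
      (({x j, x j', b i} : Finset V) ∈ T ↔ c ≠ j ∧ c ≠ j') := fun i =>
    apex hT hx (fun h => (disjoint_left.mp hBC) (hmb i) h) (g2 _ (hmb i))
  choose c hc using e1
  choose d hd using e2
  obtain ⟨p, hp⟩ := apex hT hb hzB g3
  obtain ⟨q, hq⟩ := apex hT hx hzC g4
  have hno : NoClosed c d := by
    intro i j k l hij hkl ⟨h1, h2, h3, h4⟩
    have m1 : ({b i, b j, x k} : Finset V) ∉ T := by rw [hc k i j hij]; exact not_both h1
    have m2 : ({b i, b j, x l} : Finset V) ∉ T := by rw [hc l i j hij]; exact not_both h2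
    have m3 : ({x k, x l, b i} : Finset V) ∉ T := by rw [hd i k l hkl]; exact not_both h3
    have m4 : ({x k, x l, b j} : Finset V) ∉ T := by rw [hd j k l hkl]; exact not_both h4
    rcases cov4 hT (hb.ne hij) (hbx i k) (hbx i l) (hbx j k) (hbx j l) (hx.ne hkl) with
      h | h | h | h
    · exact m1 h
    · exact m2 h
    · exact m3 h
    · exact m4 h
  have hmain := four_le c d hno p q (fun i j => decide (({b i, x j, z} : Finset V) ∈ T))
    (by
      intro i j k ⟨hij, h1, h2⟩
      simp only [decide_eq_true_eq]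
      have m1 : ({b i, b j, x k} : Finset V) ∉ T := by rw [hc k i j hij]; exact not_both h2
      have m2 : ({b i, b j, z} : Finset V) ∉ T := by rw [hp i j hij]; exact not_both h1
      rcases cov4 hT (hb.ne hij) (hbx i k) (hbz i) (hbx j k) (hbz j) (hxz k) with h | h | h | h
      · exact absurd h m1
      · exact absurd h m2
      · left; rw [rot3]; exact h
      · right; rw [rot3]; exact h)
    (by
      intro k l i ⟨hkl, h1, h2⟩
      simp only [decide_eq_true_eq]
      have m1 : ({x k, x l, b i} : Finset V) ∉ T := by rw [hd i k l hkl]; exact not_both h2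
      have m2 : ({x k, x l, z} : Finset V) ∉ T := by rw [hq k l hkl]; exact not_both h1
      rcases cov4 hT (hx.ne hkl) (hbx i k).symm (hxz k) (hbx i l).symm (hxz l) (hbz i) with
        h | h | h | h
      · exact absurd h m1
      · exact absurd h m2
      · left; rw [Finset.pair_comm]; exact h
      · right; rw [Finset.pair_comm]; exact h)
  have hsum : ∑ a ∈ univ.image b, ∑ c ∈ univ.image x, g T a c z =
      ∑ i : Fin 3, ∑ j : Fin 3, (decide (({b i, x j, z} : Finset V) ∈ T)).toNat := by
    rw [sum_enum hb]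
    refine sum_congr rfl fun i _ => ?_
    rw [sum_enum hx]
    refine sum_congr rfl fun j _ => ?_
    unfold g
    by_cases h : ({b i, x j, z} : Finset V) ∈ T <;> simp [h]
  rw [hsum]
  omega

end loc

end Run7.h678.Sat
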